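import Pool.Agent.Lib.MP_ddde1e_an.IP.Step

set_option autoImplicit false

open Filter Topology

namespace Pool.Agent.Lib.MP_ddde1e_an.IP

lemma J.of_near {S T : Set ℤ} (h : J T) {L : ℕ} (hST : S ⊆ Near L T) : J S := fun R =>
  (h (R + L)).mono (by
    rintro n ⟨s, hs, h1⟩
    obtain ⟨t, ht, h2⟩ := hST hs
    refine ⟨t, ht, ?_⟩
    rw [abs_le] at h1 h2 ⊢
    push_cast
    omega)

lemma J.mono {S T : Set ℤ} (h : J T) (hST : S ⊆ T) : J S :=
  h.of_near (L := 0) fun n hn => ⟨n, hST hn, by simp⟩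

lemma j_empty : J ∅ := fun _ c f hf =>
  ⟨fun _ => 0, Dis.const 0, fun _ => by simpa using (abs_nonneg _).trans (hf 0),
    fun _ ⟨_, h, _⟩ => h.elim⟩

/-- adding `A` keeps the property `J` -/
def U (A : Set ℤ) : Prop := ∀ B, J B → J (A ∪ B)

lemma u_step {A : Set ℤ} (h : ∀ m : ℕ, 0 < m → U {n | n ∈ A ∧ n + m ∈ A}) : U A := by
  intro B hB
  have h1 : ∀ L, J (der L A ∪ B) := by
    intro L
    induction L with
    | zero =>
      refine hB.mono ?_
      rintro n (⟨_, m, h1, h2, _⟩ | hn)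
      · omega
      · exact hn
    | succ L ih =>
      refine (h (L + 1) L.succ_pos _ ih).mono ?_
      rintro n (⟨hn, m, h1, h2, h3⟩ | hn)
      · rcases Nat.lt_or_eq_of_le h2 with h4 | rfl
        · exact .inr (.inl ⟨hn, m, h1, by omega, h3⟩)
        · exact .inl ⟨hn, h3⟩
      · exact .inr (.inr hn)
  refine step fun L => (h1 L).of_near (L := L) ?_
  rintro n ⟨hn | hn, m, h1, h2, h3 | h3⟩
  · exact ⟨n, .inl ⟨hn, m, h1, h2, h3⟩, by simp⟩
  · exact ⟨n + m, .inr h3, by rw [abs_le]; omega⟩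
  · exact ⟨n, .inr hn, by simp⟩
  · exact ⟨n, .inr hn, by simp⟩

lemma interp_of_no_sums {S : Set ℤ}
    (h : ¬ ∃ x : ℕ → ℕ, (∀ i, 0 < x i) ∧
      ∀ k, ∃ n : ℤ, ∀ I ⊆ Finset.range k, n + ((∑ i ∈ I, x i : ℕ) : ℤ) ∈ S) : Interp S := by
  have hU : U S := by
    by_contra hS
    have h1 : ∀ A : Set ℤ, ¬ U A → ∃ m : ℕ, 0 < m ∧ ¬ U {n | n ∈ A ∧ n + m ∈ A} := by
      intro A hA
      by_contra hc
      push Not at hc
      exact hA (u_step hc)
    choose! μ hμ1 hμ2 using h1
    let B : ℕ → Set ℤ := fun k => Nat.rec S (fun _ A => {n | n ∈ A ∧ n + μ A ∈ A}) k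
    have hB : ∀ k, ¬ U (B k) := fun k => by
      induction k with
      | zero => exact hS
      | succ k ih => exact hμ2 _ ih
    have hsum : ∀ k, ∀ n ∈ B k, ∀ I ⊆ Finset.range k,
        n + ((∑ i ∈ I, μ (B i) : ℕ) : ℤ) ∈ S := fun k => by
      induction k with
      | zero =>
        intro n hn I hI
        obtain rfl : I = ∅ := by simpa using hI
        have hn' : n ∈ S := hn
        simpa using hn'
      | succ k ih =>
        intro n hn I hI
        have hI' : I.erase k ⊆ Finset.range k := fun i hi => by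
          have h1 := Finset.mem_erase.1 hi
          have h2 := Finset.mem_range.1 (hI h1.2)
          exact Finset.mem_range.2 (by omega)
        by_cases hk : k ∈ I
        · have := ih _ hn.2 _ hI'
          rw [← Finset.add_sum_erase I _ hk, Nat.cast_add, ← add_assoc]
          exact this
        · rw [Finset.erase_eq_of_notMem hk] at hI'
          exact ih _ hn.1 _ hI'
    refine h ⟨fun i => μ (B i), fun i => hμ1 _ (hB i), fun k => ?_⟩
    rcases (B k).eq_empty_or_nonempty with he | ⟨n, hn⟩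
    · exact (hB k fun C hC => by rwa [he, Set.empty_union]).elim
    · exact ⟨n, hsum k n hn⟩
  exact (hU ∅ j_empty 0).mono fun n hn => ⟨n, .inl hn, by simp⟩

end Pool.Agent.Lib.MP_ddde1e_an.IP
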