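import Mathlib

/-! Functions on `ℤ` that come from distal systems, through idempotent ultrafilters. -/

set_option autoImplicit false

open Filter Topology

namespace Pool.Agent.Lib.MP_ddde1e_an.IP

/-- the sum of two ultrafilters on `ℤ` -/
def ua (u p : Ultrafilter ℤ) : Ultrafilter ℤ := Ultrafilter.add.add u p

lemma ev_ua (u p : Ultrafilter ℤ) (P : ℤ → Prop) :
    (∀ᶠ n in (ua u p : Filter ℤ), P n) ↔ ∀ᶠ m in (u : Filter ℤ), ∀ᶠ n in (p : Filter ℤ), P (m + n) :=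
  Iff.rfl

lemma ua_assoc (u v w : Ultrafilter ℤ) : ua (ua u v) w = ua u (ua v w) :=
  Ultrafilter.coe_inj.mp <| Filter.ext' fun P => by simp [ev_ua, add_assoc]

/-- iterated limits give the limit along the sum -/
lemma tendsto_ua {E : Type} [TopologicalSpace E] [RegularSpace E] {g : ℤ → E} {b : ℤ → E} {a : E}
    {u p : Ultrafilter ℤ} (hb : ∀ m, Tendsto (fun n => g (m + n)) p (𝓝 (b m))) :
    Tendsto g (ua u p) (𝓝 a) ↔ Tendsto b u (𝓝 a) := by
  constructor
  · intro h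
    refine (closed_nhds_basis a).tendsto_right_iff.2 fun s hs => ?_
    have h1 := (ev_ua u p fun n => g n ∈ s).1 (h hs.1)
    filter_upwards [h1] with m hm
    exact hs.2.mem_of_tendsto (hb m) hm
  · intro h
    refine (nhds_basis_opens a).tendsto_right_iff.2 fun s hs => ?_
    refine (ev_ua u p fun n => g n ∈ s).2 ?_
    filter_upwards [h (hs.2.mem_nhds hs.1)] with m hm
    exact hb m (hs.2.mem_nhds hm)

/-- `g` has the same limit along `p` and along `u + p` for every idempotent `u` -/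
def Dis {E : Type} [TopologicalSpace E] (g : ℤ → E) : Prop :=
  ∀ u p : Ultrafilter ℤ, ua u u = u → ∃ a, Tendsto g p (𝓝 a) ∧ Tendsto g (ua u p) (𝓝 a)

section Alg

variable {E F : Type} [TopologicalSpace E] [TopologicalSpace F]

lemma Dis.const (a : E) : Dis fun _ : ℤ => a :=
  fun _ _ _ => ⟨a, tendsto_const_nhds, tendsto_const_nhds⟩

lemma Dis.comp {g : ℤ → E} (hg : Dis g) {φ : E → F} (hφ : Continuous φ) :
    Dis fun n => φ (g n) := fun u p hu => by
  obtain ⟨a, h1, h2⟩ := hg u p hu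
  exact ⟨φ a, (hφ.tendsto a).comp h1, (hφ.tendsto a).comp h2⟩

lemma Dis.pair {g : ℤ → E} {h : ℤ → F} (hg : Dis g) (hh : Dis h) :
    Dis fun n => (g n, h n) := fun u p hu => by
  obtain ⟨a, h1, h2⟩ := hg u p hu
  obtain ⟨b, h3, h4⟩ := hh u p hu
  exact ⟨(a, b), h1.prodMk_nhds h3, h2.prodMk_nhds h4⟩

lemma Dis.shift {g : ℤ → E} (hg : Dis g) (k : ℤ) : Dis fun n => g (k + n) := fun u p hu => by
  obtain ⟨a, h1, h2⟩ := hg u (ua p (pure k)) hu
  rw [← ua_assoc] at h2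
  have key : ∀ q : Ultrafilter ℤ, Tendsto g (ua q (pure k)) (𝓝 a) →
      Tendsto (fun n => g (k + n)) q (𝓝 a) := fun q hq s hs => by
    have := (ev_ua q (pure k) fun n => g n ∈ s).1 (hq hs)
    have h3 : ∀ᶠ m in (q : Filter ℤ), g (k + m) ∈ s := by simpa [add_comm] using this
    exact h3
  exact ⟨a, key p h1, key _ h2⟩

lemma Dis.tsum {h : ℕ → ℤ → ℝ} (hh : ∀ r, Dis (h r)) {c : ℕ → ℝ} (hc : Summable c)
    (hb : ∀ r n, |h r n| ≤ c r) : Dis fun n => ∑' r, h r n := fun u p hu => by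
  choose a h1 h2 using fun r => hh r u p hu
  exact ⟨∑' r, a r,
    tendsto_tsum_of_dominated_convergence hc h1 (.of_forall fun n r => hb r n),
    tendsto_tsum_of_dominated_convergence hc h2 (.of_forall fun n r => hb r n)⟩

end Alg

/-- bounded real functions on `S` extend to functions in the class `Dis` -/
def Interp (S : Set ℤ) : Prop :=
  ∀ (c : ℝ) (f : ℤ → ℝ), (∀ n, |f n| ≤ c) →
    ∃ g : ℤ → ℝ, Dis g ∧ (∀ n, |g n| ≤ c) ∧ ∀ n ∈ S, g n = f n

/-- every partition of `S` is separated by a function in the class `Dis` -/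
def Sep (S : Set ℤ) : Prop :=
  ∀ Y : Set ℤ, ∃ g : ℤ → ℝ, Dis g ∧ (∀ n, |g n| ≤ 1) ∧
    (∀ n ∈ S, n ∈ Y → g n = 1) ∧ ∀ n ∈ S, n ∉ Y → g n = -1

lemma Interp.mono {S T : Set ℤ} (h : Interp T) (hST : S ⊆ T) : Interp S := fun c f hf => by
  obtain ⟨g, h1, h2, h3⟩ := h c f hf
  exact ⟨g, h1, h2, fun n hn => h3 n (hST hn)⟩

/-- the integers within `R` of `S` -/
def Near (R : ℕ) (S : Set ℤ) : Set ℤ := {n | ∃ s ∈ S, |n - s| ≤ R}

/-- the points of `S` with a further point of `S` at most `L` later -/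
def der (L : ℕ) (S : Set ℤ) : Set ℤ := {n | n ∈ S ∧ ∃ m : ℕ, 1 ≤ m ∧ m ≤ L ∧ n + m ∈ S}

/-- all neighbourhoods of `S` are interpolation sets -/
def J (S : Set ℤ) : Prop := ∀ R, Interp (Near R S)

/-- `a < b` are consecutive elements of `A` -/
def Gap (A : Set ℤ) (a b : ℤ) : Prop := a ∈ A ∧ b ∈ A ∧ a < b ∧ ∀ n, a < n → n < b → n ∉ A

/-- the union of the gaps of length less than `L` -/
def Short (A : Set ℤ) (L : ℕ) : Set ℤ := {n | ∃ a b, Gap A a b ∧ b - a < L ∧ a ≤ n ∧ n < b}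

end Pool.Agent.Lib.MP_ddde1e_an.IP
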