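import Pool.Agent.Lib.MP_ddde1e_an.IP.Defs

set_option autoImplicit false

open Filter Topology

namespace Pool.Agent.Lib.MP_ddde1e_an.IP

lemma glue_class (p : Ultrafilter ℤ) {M : ℕ} (hM : 0 < M) :
    ∃ r : ℤ, ∀ᶠ n in (p : Filter ℤ), n % M = r := by
  have h : (⋃ r ∈ (Set.Ico (0 : ℤ) M), {n : ℤ | n % M = r}) ∈ p := by
    have e : (⋃ r ∈ (Set.Ico (0 : ℤ) M), {n : ℤ | n % M = r}) = Set.univ := by
      refine Set.eq_univ_of_forall fun n => ?_
      simp only [Set.mem_iUnion, Set.mem_ofPred_eq, Set.mem_Ico]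
      exact ⟨n % M, ⟨Int.emod_nonneg _ (by omega), Int.emod_lt_of_pos _ (by omega)⟩, rfl⟩
    rw [e]
    exact Filter.univ_mem
  obtain ⟨r, -, hr⟩ := (Ultrafilter.finite_biUnion_mem_iff (Set.finite_Ico (0 : ℤ) M)).1 h
  exact ⟨r, hr⟩

/-- an idempotent ultrafilter contains the multiples of `M` -/
lemma idem_dvd {u : Ultrafilter ℤ} (hu : ua u u = u) {M : ℕ} (hM : 0 < M) :
    ∀ᶠ m in (u : Filter ℤ), (M : ℤ) ∣ m := by
  obtain ⟨r, hr⟩ := glue_class u hM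
  have h2 : ∀ᶠ n in (ua u u : Filter ℤ), n % M = r := by rw [hu]; exact hr
  rw [ev_ua] at h2
  filter_upwards [h2] with m hm
  obtain ⟨n, h4, h5⟩ := (hm.and hr).exists
  have h6 : (m + n - n) % M = 0 := by
    rw [Int.sub_emod, h4, h5, sub_self, Int.zero_emod]
  rw [add_sub_cancel_right] at h6
  exact Int.dvd_of_emod_eq_zero h6

lemma Dis.glue {E : Type} [TopologicalSpace E] {M : ℕ} (hM : 0 < M) {g : ℤ → ℤ → E}
    (hg : ∀ r, Dis (g r)) : Dis fun n => g (n % M) n := by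
  intro u p hu
  obtain ⟨r, hr⟩ := glue_class p hM
  have hr' : ∀ᶠ n in (ua u p : Filter ℤ), n % M = r := by
    rw [ev_ua]
    filter_upwards [idem_dvd hu hM] with m hm
    filter_upwards [hr] with n hn
    obtain ⟨k, rfl⟩ := hm
    rw [add_comm, Int.add_mul_emod_self_left, hn]
  obtain ⟨a, h1, h2⟩ := hg r u p hu
  refine ⟨a, h1.congr' ?_, h2.congr' ?_⟩
  · filter_upwards [hr] with n hn
    rw [hn]
  · filter_upwards [hr'] with n hn
    rw [hn]

lemma sep_of_classes {S : Set ℤ} {M : ℕ} (hM : 0 < M)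
    (h : ∀ r : ℤ, Sep (S ∩ {n | n % M = r})) : Sep S := by
  intro Y
  choose g h1 h2 h3 h4 using fun r => h r Y
  exact ⟨fun n => g (n % M) n, Dis.glue hM h1, fun n => h2 _ n,
    fun n hn hY => h3 _ n ⟨hn, rfl⟩ hY, fun n hn hY => h4 _ n ⟨hn, rfl⟩ hY⟩

end Pool.Agent.Lib.MP_ddde1e_an.IP
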