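import Pool.Agent.Lib.MP_ddde1e_an.IP.Defs

set_option autoImplicit false

open Filter Topology

namespace Pool.Agent.Lib.MP_ddde1e_an.IP

lemma Sep.interp {S : Set ℤ} (h : Sep S) : Interp S := by
  intro c f hf
  have hc : 0 ≤ c := (abs_nonneg _).trans (hf 0)
  choose s hs1 hs2 hs3 hs4 using h
  let F : ℕ → ℤ → ℝ := fun k =>
    Nat.rec f (fun k G n => G n - c / 2 / 2 ^ k * s {m | 0 ≤ G m} n) k
  let g : ℕ → ℤ → ℝ := fun k n => c / 2 / 2 ^ k * s {m | 0 ≤ F k m} n
  have hF : ∀ k n, F (k + 1) n = F k n - g k n := fun _ _ => rfl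
  have hg : ∀ k n, |g k n| ≤ c / 2 / 2 ^ k := fun k n => by
    have h0 : 0 ≤ c / 2 / 2 ^ k := by positivity
    simp only [g]
    rw [abs_mul, abs_of_nonneg h0]
    exact mul_le_of_le_one_right h0 (hs2 _ n)
  have hb : ∀ n ∈ S, ∀ k, |F k n| ≤ c / 2 ^ k := fun n hn k => by
    induction k with
    | zero => simpa [F] using hf n
    | succ k ih =>
      have e : c / 2 ^ k = 2 * (c / 2 / 2 ^ k) := by ring
      have e' : c / 2 ^ (k + 1) = c / 2 / 2 ^ k := by ring
      rw [hF, e']
      rw [e, abs_le] at ih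
      by_cases h0 : 0 ≤ F k n
      · simp only [g]
        rw [hs3 _ n hn h0, abs_le]
        constructor <;> linarith [ih.2]
      · simp only [g]
        rw [hs4 _ n hn h0, abs_le]
        constructor <;> linarith [ih.1, not_le.1 h0]
  have hsum : ∀ n, Summable fun k => g k n := fun n =>
    Summable.of_norm_bounded (summable_geometric_two' c) fun k => hg k n
  refine ⟨fun n => ∑' k, g k n,
    Dis.tsum (fun k => (hs1 _).comp (continuous_const_mul _)) (summable_geometric_two' c) hg,
    fun n => ?_, fun n hn => ?_⟩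
  · exact tsum_of_norm_bounded (f := fun k => g k n) (hasSum_geometric_two' c) fun k => hg k n
  · have h1 : ∀ N, ∑ k ∈ Finset.range N, g k n = f n - F N n := fun N => by
      induction N with
      | zero => simp [F]
      | succ N ih => rw [Finset.sum_range_succ, ih, hF]; ring
    have h2 : Tendsto (fun N => F N n) atTop (𝓝 0) :=
      squeeze_zero_norm (hb n hn)
        (tendsto_const_nhds.div_atTop (tendsto_pow_atTop_atTop_of_one_lt one_lt_two))
    have h3 := (hsum n).hasSum.tendsto_sum_nat
    simp only [h1] at h3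
    simpa using tendsto_nhds_unique h3 (tendsto_const_nhds.sub h2)

end Pool.Agent.Lib.MP_ddde1e_an.IP
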