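import Pool.Agent.Lib.MP_ddde1e_an.IP.Defs

set_option autoImplicit false

open Filter Topology

namespace Pool.Agent.Lib.MP_ddde1e_an.IP

lemma level_uniq {A : Set ℤ} {a b a' b' n : ℤ} (h : Gap A a b) (h' : Gap A a' b') (h1 : a ≤ n)
    (h2 : n < b) (h3 : a' ≤ n) (h4 : n < b') : a = a' ∧ b = b' := by
  have e : a = a' := by
    rcases lt_trichotomy a a' with c | c | c
    · exact absurd h'.1 (h.2.2.2 a' c (by omega))
    · exact c
    · exact absurd h.1 (h'.2.2.2 a c (by omega))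
  refine ⟨e, ?_⟩
  rcases lt_trichotomy b b' with c | c | c
  · exact absurd h.2.1 (h'.2.2.2 b (by omega) c)
  · exact c
  · exact absurd h'.2.1 (h.2.2.2 b' (by omega) c)

lemma level {A : Set ℤ} {L L' : ℕ} (hL : 0 < L) (hLL : L ≤ L') (hI : Interp (Short A L'))
    (H t : ℤ → ℝ) :
    ∃ h : ℤ → ℝ, Dis h ∧ (∀ n, |h n| ≤ 1 / L) ∧
      (∀ a b, Gap A a b → b - a < L → ∀ n, a ≤ n → n < b → h n = 0) ∧
      ∀ a b, Gap A a b → (L : ℤ) ≤ b - a → b - a < L' →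
        ∃ z : ℤ, ∑ n ∈ Finset.Ico a b, (H n + h n) = t b - t a + z := by
  classical
  have L0 : (0 : ℝ) < L := by exact_mod_cast hL
  let P : ℤ → ℤ × ℤ → Prop := fun n x => Gap A x.1 x.2 ∧ (L : ℤ) ≤ x.2 - x.1 ∧ x.1 ≤ n ∧ n < x.2
  let v : ℤ × ℤ → ℝ := fun x =>
    Int.fract (t x.2 - t x.1 - ∑ n ∈ Finset.Ico x.1 x.2, H n) / (x.2 - x.1 : ℤ)
  let f : ℤ → ℝ := fun n => if h : ∃ x, P n x then v h.choose else 0
  have f1 : ∀ n x, P n x → f n = v x := fun n x hx => by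
    have h : ∃ x, P n x := ⟨x, hx⟩
    have s := h.choose_spec
    have e := level_uniq s.1 hx.1 s.2.2.1 s.2.2.2 hx.2.2.1 hx.2.2.2
    simp only [f, dif_pos h]
    rw [show h.choose = x from Prod.ext e.1 e.2]
  have f2 : ∀ n, |f n| ≤ 1 / L := fun n => by
    by_cases h : ∃ x, P n x
    · obtain ⟨x, hx⟩ := h
      have e : (L : ℝ) ≤ (x.2 - x.1 : ℤ) := by exact_mod_cast hx.2.1
      rw [f1 n x hx, abs_of_nonneg (div_nonneg (Int.fract_nonneg _) (L0.le.trans e))]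
      exact div_le_div₀ zero_le_one (Int.fract_lt_one _).le L0 e
    · simp only [f, dif_neg h, abs_zero]
      positivity
  obtain ⟨g, g1, g2, g3⟩ := hI (1 / L) f f2
  refine ⟨g, g1, g2, fun a b hab hs n h1 h2 => ?_, fun a b hab h1 h2 => ?_⟩
  · rw [g3 n ⟨a, b, hab, by omega, h1, h2⟩]
    refine dif_neg ?_
    rintro ⟨x, hx⟩
    have e := level_uniq hab hx.1 h1 h2 hx.2.2.1 hx.2.2.2
    have := hx.2.1
    omega
  · have e : ∑ n ∈ Finset.Ico a b, g n = ∑ _n ∈ Finset.Ico a b, v (a, b) :=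
      Finset.sum_congr rfl fun n hn => by
        have hn := Finset.mem_Ico.1 hn
        rw [g3 n ⟨a, b, hab, h2, hn.1, hn.2⟩, f1 n (a, b) ⟨hab, h1, hn.1, hn.2⟩]
    have p : (0 : ℤ) < b - a := by have := hab.2.2.1; omega
    have q : ((b - a : ℤ) : ℝ) ≠ 0 := by exact_mod_cast p.ne'
    have c : (((b - a).toNat : ℕ) : ℝ) = (b - a : ℤ) := by exact_mod_cast Int.toNat_of_nonneg p.le
    refine ⟨-⌊t b - t a - ∑ n ∈ Finset.Ico a b, H n⌋, ?_⟩
    rw [Finset.sum_add_distrib, e, Finset.sum_const, Int.card_Ico, nsmul_eq_mul, c]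
    simp only [v]
    rw [mul_div_cancel₀ _ q, Int.fract]
    push_cast
    ring

end Pool.Agent.Lib.MP_ddde1e_an.IP
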