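import Pool.Agent.Lib.MP_ddde1e_an.IP.Defs

set_option autoImplicit false

open Filter Topology

namespace Pool.Agent.Lib.MP_ddde1e_an.IP

lemma neca_large {P : ℕ → ℕ → Prop} (hm : ∀ k l n, k ≤ l → P l n → P k n)
    (h : ∀ k, ∃ n, P k n) (H : ∀ n, ∃ k, ¬ P k n) (k N : ℕ) : ∃ n, N ≤ n ∧ P k n := by
  choose κ hκ using H
  obtain ⟨n, hn⟩ := h (max k ((Finset.range N).sup κ))
  refine ⟨n, ?_, hm _ _ _ (le_max_left _ _) hn⟩
  by_contra hc
  exact hκ n (hm _ _ _ ((Finset.le_sup (f := κ) (Finset.mem_range.2 (not_le.1 hc))).trans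
    (le_max_right _ _)) hn)

lemma neca_seq {P : ℕ → ℕ → Prop} (h : ∀ k N, ∃ n, N ≤ n ∧ P k n) :
    ∃ a : ℕ → ℕ, (∀ k, a k + k + 1 ≤ a (k + 1)) ∧ ∀ k, P k (a k) := by
  choose f h1 h2 using h
  refine ⟨fun k => Nat.rec (f 0 0) (fun k b => f (k + 1) (b + k + 1)) k, fun k => h1 _ _,
    fun k => ?_⟩
  cases k with
  | zero => exact h2 _ _
  | succ k => exact h2 _ _

lemma neca_sub (I : Finset ℕ) {k : ℕ} (hk : I.sup id + 1 ≤ k) : I ⊆ Finset.range k :=
  fun _ hi => Finset.mem_range.2 (lt_of_lt_of_le (Nat.lt_succ_of_le (Finset.le_sup (f := id) hi)) hk)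

lemma exists_sparse {S : Set ℕ} {x : ℕ → ℕ}
    (h : ∀ k, ∃ n, ∀ I ⊆ Finset.range k, n + ∑ i ∈ I, x i ∈ S) :
    ∃ (p : Ultrafilter ℕ) (B : Set ℕ), B ∈ p ∧
      (∀ I : Finset ℕ, ∀ᶠ n in (p : Filter ℕ), n + ∑ i ∈ I, x i ∈ S) ∧
      ∀ m : ℕ, 0 < m → ∀ᶠ n in (p : Filter ℕ), n + m ∉ B := by
  by_cases H : ∃ n, ∀ k, ∀ I ⊆ Finset.range k, n + ∑ i ∈ I, x i ∈ S
  · obtain ⟨n, hn⟩ := H
    refine ⟨pure n, {n}, Ultrafilter.mem_pure.2 rfl, fun I => ?_, fun m hm => ?_⟩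
    · rw [Ultrafilter.coe_pure, eventually_pure]
      exact hn _ I (neca_sub I le_rfl)
    · rw [Ultrafilter.coe_pure, eventually_pure, Set.mem_singleton_iff]
      omega
  · obtain ⟨a, h1, h2⟩ := neca_seq (neca_large
      (P := fun k n => ∀ I ⊆ Finset.range k, n + ∑ i ∈ I, x i ∈ S)
      (fun k l n hkl hn I hI => hn I (hI.trans (Finset.range_mono hkl))) h
      (fun n => not_forall.1 fun hn => H ⟨n, hn⟩))
    have hs : StrictMono a := strictMono_nat_of_lt_succ fun k => by have := h1 k; omega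
    refine ⟨(hyperfilter ℕ).map a, Set.range a, ?_, fun I => ?_, fun m hm => ?_⟩
    · rw [Ultrafilter.mem_map, Set.preimage_range]
      exact univ_mem
    · rw [Ultrafilter.coe_map, eventually_map]
      exact ((eventually_ge_atTop (I.sup id + 1)).mono fun k hk =>
        h2 k I (neca_sub I hk)).filter_mono Nat.hyperfilter_le_atTop
    · rw [Ultrafilter.coe_map, eventually_map]
      refine ((eventually_ge_atTop m).mono fun k hk => ?_).filter_mono Nat.hyperfilter_le_atTop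
      rintro ⟨j, hj⟩
      have h3 := h1 k
      have h4 : k < j := hs.lt_iff_lt.1 (by omega)
      have h5 : j < k + 1 := hs.lt_iff_lt.1 (by omega)
      omega

end Pool.Agent.Lib.MP_ddde1e_an.IP
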