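import Pool.Agent.Lib.MP_ddde1e_an.IP.Defs

set_option autoImplicit false

open Filter Topology

namespace Pool.Agent.Lib.MP_ddde1e_an.IP

lemma necb_fs {a : Stream' ℕ} {m : ℕ} (h : m ∈ Hindman.FS a) :
    ∃ I : Finset ℕ, I.Nonempty ∧ m = ∑ i ∈ I, a i := by
  induction h with
  | head' a => exact ⟨{0}, Finset.singleton_nonempty 0, by rw [Finset.sum_singleton]; rfl⟩
  | tail' a m _ ih =>
    obtain ⟨I, h1, h2⟩ := ih
    refine ⟨I.map ⟨Nat.succ, Nat.succ_injective⟩, h1.map, ?_⟩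
    rw [Finset.sum_map, h2]
    rfl
  | cons' a m _ ih =>
    obtain ⟨I, -, h2⟩ := ih
    refine ⟨insert 0 (I.map ⟨Nat.succ, Nat.succ_injective⟩), Finset.insert_nonempty _ _, ?_⟩
    rw [Finset.sum_insert (by simp), Finset.sum_map, h2]
    rfl

/-- points of distal systems are recurrent along every set of finite sums -/
lemma mem_of_sums {X : Type} [MetricSpace X] [CompactSpace X] (T : X ≃ₜ X)
    (hT : ∀ x y : X, x ≠ y → 0 < ⨅ n : ℤ, dist ((T ^ n) x) ((T ^ n) y))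
    (x : ℕ → ℕ) (y : X) {Z : Set X} (hZ : IsClosed Z)
    (h : ∀ I : Finset ℕ, I.Nonempty → (T ^ (∑ i ∈ I, x i)) y ∈ Z) : y ∈ Z := by
  obtain ⟨U, hU, hF⟩ := Hindman.exists_idempotent_ultrafilter_le_FS (M := ℕ) x
  obtain ⟨z, -, hz⟩ := isCompact_univ.ultrafilter_le_nhds
    (Ultrafilter.map (fun m : ℕ => (T ^ m) y) U) (by simp)
  have h1 : Tendsto (fun m : ℕ => (T ^ m) y) U (𝓝 z) := hz
  have h2 : z ∈ Z := hZ.mem_of_tendsto h1 (hF.mono fun m hm => by
    obtain ⟨I, g1, rfl⟩ := necb_fs hm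
    exact h I g1)
  have h3 : Tendsto (fun m : ℕ => (T ^ m) z) U (𝓝 z) := by
    refine (closed_nhds_basis z).tendsto_right_iff.2 fun s hs => ?_
    have g1 : ∀ᶠ m in (U : Filter ℕ), (T ^ m) y ∈ s := h1 hs.1
    rw [← hU, Ultrafilter.eventually_add] at g1
    filter_upwards [g1] with m hm
    refine hs.2.mem_of_tendsto (((T ^ m).continuous.tendsto z).comp h1) (hm.mono fun n hn => ?_)
    rwa [pow_add] at hn
  have h4 : Tendsto (fun m : ℕ => dist ((T ^ m) y) ((T ^ m) z)) U (𝓝 0) := by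
    simpa using h1.dist h3
  by_contra hy
  refine (hT y z fun e => hy (e ▸ h2)).not_ge (ge_of_tendsto' h4 fun m => ?_)
  have g2 := ciInf_le (f := fun n : ℤ => dist ((T ^ n) y) ((T ^ n) z))
    ⟨0, by rintro _ ⟨n, rfl⟩; exact dist_nonneg⟩ (m : ℤ)
  simpa only [zpow_natCast] using g2

end Pool.Agent.Lib.MP_ddde1e_an.IP
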