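import Pool.Agent.Lib.MP_ddde1e_an.IP.Defs

set_option autoImplicit false

open Filter Topology

namespace Pool.Agent.Lib.MP_ddde1e_an.IP

lemma exists_sums (g : ℤ → ℝ) : ∃ ψ : ℤ → ℝ, ∀ n, ψ (n + 1) - ψ n = g n := by
  refine ⟨fun n => ∑ i ∈ Finset.range n.toNat, g i -
    ∑ i ∈ Finset.range (-n).toNat, g (-i - 1), fun n => ?_⟩
  beta_reduce
  rcases le_or_gt 0 n with h | h
  · obtain ⟨k, rfl⟩ := Int.eq_ofNat_of_zero_le h
    rw [show ((k : ℤ) + 1).toNat = k + 1 by omega, show (-((k : ℤ) + 1)).toNat = 0 by omega,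
      show (-(k : ℤ)).toNat = 0 by omega, Int.toNat_natCast, Finset.sum_range_succ]
    ring
  · obtain ⟨k, rfl⟩ : ∃ k : ℕ, n = -k - 1 := ⟨(-n - 1).toNat, by omega⟩
    rw [show (-(k : ℤ) - 1 + 1).toNat = 0 by omega, show (-(-(k : ℤ) - 1 + 1)).toNat = k by omega,
      show (-(k : ℤ) - 1).toNat = 0 by omega, show (-(-(k : ℤ) - 1)).toNat = k + 1 by omega,
      Finset.sum_range_succ]
    ring

lemma skew_lim (f : ℤ → UnitAddCircle) (q : Ultrafilter ℤ) : ∃ a, Tendsto f q (𝓝 a) := by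
  obtain ⟨a, -, ha⟩ := isCompact_univ.ultrafilter_le_nhds (Ultrafilter.map f q) (by simp)
  exact ⟨a, ha⟩

lemma Dis.skew {ψ : ℤ → ℝ} (h : Dis fun n => ψ (n + 1) - ψ n) :
    Dis fun n => ((ψ n : ℝ) : UnitAddCircle) := by
  intro u p hu
  choose A hA using fun m => skew_lim (fun n => ((ψ (m + n) : ℝ) : UnitAddCircle)) p
  choose B hB using fun m => skew_lim (fun n => ((ψ (m + n) : ℝ) : UnitAddCircle)) (ua u p)
  have step : ∀ m, B (m + 1) - A (m + 1) = B m - A m := fun m => by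
    obtain ⟨a, h1, h2⟩ := ((h.shift m).comp (AddCircle.continuous_mk' (1 : ℝ))) u p hu
    have e : (fun n => ((ψ (m + 1 + n) : ℝ) : UnitAddCircle) - ((ψ (m + n) : ℝ) : UnitAddCircle)) =
        fun n => QuotientAddGroup.mk' _ (ψ (m + n + 1) - ψ (m + n)) := by
      funext n
      rw [add_right_comm]
      rfl
    have a1 := tendsto_nhds_unique (e ▸ (hA (m + 1)).sub (hA m)) h1
    have a2 := tendsto_nhds_unique (e ▸ (hB (m + 1)).sub (hB m)) h2
    rw [sub_eq_sub_iff_sub_eq_sub, a1, a2]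
  have all : ∀ m, B m - A m = B 0 - A 0 := fun m => by
    induction m using Int.induction_on with
    | zero => rfl
    | succ i ih => rw [step, ih]
    | pred i ih => rw [← step, sub_add_cancel, ih]
  have b0 : Tendsto (fun n => ((ψ n : ℝ) : UnitAddCircle)) (ua u p) (𝓝 (B 0)) := by
    simpa using hB 0
  have t1 := (tendsto_ua hA).1 b0
  have t2 := (tendsto_ua (u := u) hB).1 (by rwa [← ua_assoc, hu])
  have t3 := t2.sub t1
  simp only [all, sub_self] at t3
  have t4 := sub_eq_zero.1 (tendsto_nhds_unique tendsto_const_nhds t3)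
  exact ⟨B 0, by simpa [t4] using hA 0, b0⟩

end Pool.Agent.Lib.MP_ddde1e_an.IP
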