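import Pool.Agent.Lib.MP_ddde1e_an.IP.Level
import Pool.Agent.Lib.MP_ddde1e_an.IP.Skew

set_option autoImplicit false

open Filter Topology

namespace Pool.Agent.Lib.MP_ddde1e_an.IP

lemma slow_tel {ψ g : ℤ → ℝ} (h : ∀ n, ψ (n + 1) - ψ n = g n) (a : ℤ) {b : ℤ} (hab : a ≤ b) :
    ∑ n ∈ Finset.Ico a b, g n = ψ b - ψ a := by
  induction b, hab using Int.leInduction with
  | base => simp
  | succ b hb ih =>
    rw [← Finset.insert_Ico_right_eq_Ico_add_one hb, Finset.sum_insert (by simp), ih, ← h b]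
    ring

lemma slow_chain {A : Set ℤ} {P : ℤ → ℝ} (h : ∀ a b, Gap A a b → ∃ z : ℤ, P b - P a = z) :
    ∀ (d : ℕ) (a b : ℤ), a ∈ A → b ∈ A → a ≤ b → b - a ≤ d → ∃ z : ℤ, P b - P a = z := by
  intro d
  induction d with
  | zero =>
    intro a b _ _ h1 h2
    obtain rfl : a = b := by omega
    exact ⟨0, by simp⟩
  | succ d ih =>
    intro a b ha hb h1 h2
    rcases h1.eq_or_lt with rfl | h1
    · exact ⟨0, by simp⟩
    by_cases hg : ∀ n, a < n → n < b → n ∉ A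
    · exact h a b ⟨ha, hb, h1, hg⟩
    · push Not at hg
      obtain ⟨n, h3, h4, h5⟩ := hg
      obtain ⟨z, hz⟩ := ih a n ha h5 h3.le (by omega)
      obtain ⟨z', hz'⟩ := ih n b h5 hb h4.le (by omega)
      exact ⟨z + z', by push_cast; linarith⟩

lemma slow {A : Set ℤ} {K : ℕ} (hK : 0 < K) (hA : ∀ a b, Gap A a b → (K : ℤ) ≤ b - a)
    (hI : ∀ L, Interp (Short A L)) (t : ℤ → ℝ) :
    ∃ ψ : ℤ → ℝ, Dis (fun n => ψ (n + 1) - ψ n) ∧ (∀ n, |ψ (n + 1) - ψ n| ≤ 2 / K) ∧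
      ∀ a ∈ A, ∃ z : ℤ, ψ a = t a + z := by
  choose st s1 s2 s3 s4 using fun (r : ℕ) (H : ℤ → ℝ) =>
    level (A := A) (L := K * 2 ^ r) (L' := K * 2 ^ (r + 1)) (by positivity)
      (Nat.mul_le_mul_left _ (Nat.pow_le_pow_right (by norm_num) (Nat.le_succ r))) (hI _) H t
  obtain ⟨H, H0, H1⟩ : ∃ H : ℕ → ℤ → ℝ, (∀ n, H 0 n = 0) ∧
      ∀ r n, H (r + 1) n = H r n + st r (H r) n :=
    ⟨fun r => Nat.rec (fun _ => 0) (fun r G n => G n + st r G n) r, fun _ => rfl, fun _ _ => rfl⟩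
  have H2 : ∀ r n, H r n = ∑ j ∈ Finset.range r, st j (H j) n := fun r n => by
    induction r with
    | zero => simp [H0]
    | succ r ih => rw [H1, ih, Finset.sum_range_succ]
  have hb : ∀ r n, |st r (H r) n| ≤ (2 / K : ℝ) / 2 / 2 ^ r := fun r n =>
    (s2 r _ n).trans_eq (by push_cast; field_simp)
  have hs := summable_geometric_two' (2 / K : ℝ)
  obtain ⟨ψ, hψ⟩ := exists_sums fun n => ∑' r, st r (H r) n
  have d1 : Dis fun n => ψ (n + 1) - ψ n := by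
    simp only [hψ]
    exact Dis.tsum (fun r => s1 r _) hs hb
  have d2 : ∀ n, |ψ (n + 1) - ψ n| ≤ 2 / K := fun n => by
    rw [hψ, ← Real.norm_eq_abs]
    exact tsum_of_norm_bounded (hasSum_geometric_two' _) fun r => hb r n
  have d3 : ∀ a b, Gap A a b → ∃ z : ℤ, (ψ b - t b) - (ψ a - t a) = z := fun a b hg => by
    obtain ⟨r, r1, r2⟩ : ∃ r : ℕ, ((K * 2 ^ r : ℕ) : ℤ) ≤ b - a ∧ b - a < (K * 2 ^ (r + 1) : ℕ) := by
      have e : ∃ r : ℕ, b - a < (K * 2 ^ (r + 1) : ℕ) := by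
        refine ⟨(b - a).toNat, ?_⟩
        have h1 : (b - a).toNat < 2 ^ (b - a).toNat := Nat.lt_two_pow_self
        have h2 : 2 ^ (b - a).toNat ≤ K * 2 ^ ((b - a).toNat + 1) :=
          (Nat.pow_le_pow_right (by norm_num) (Nat.le_succ _)).trans (Nat.le_mul_of_pos_left _ hK)
        omega
      refine ⟨Nat.find e, ?_, Nat.find_spec e⟩
      rcases h : Nat.find e with _ | r
      · simpa using hA a b hg
      · exact not_lt.1 (Nat.find_min e (m := r) (by omega))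
    obtain ⟨z, hz⟩ := s4 r (H r) a b hg r1 r2
    refine ⟨z, ?_⟩
    have e1 := slow_tel hψ a hg.2.2.1.le
    have e2 : ∑ n ∈ Finset.Ico a b, ∑' j, st j (H j) n =
        ∑ n ∈ Finset.Ico a b, (H r n + st r (H r) n) := by
      refine Finset.sum_congr rfl fun n hn => ?_
      rw [Finset.mem_Ico] at hn
      rw [← H1, H2]
      refine tsum_eq_sum fun j hj => s3 j _ a b hg (r2.trans_le ?_) n hn.1 hn.2
      rw [Finset.mem_range, not_lt] at hj
      exact_mod_cast Nat.mul_le_mul_left _ (Nat.pow_le_pow_right (by norm_num) hj)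
    linarith
  rcases A.eq_empty_or_nonempty with rfl | ⟨a₀, h₀⟩
  · exact ⟨ψ, d1, d2, fun a ha => ha.elim⟩
  refine ⟨fun n => ψ n - (ψ a₀ - t a₀), by simpa only [sub_sub_sub_cancel_right] using d1,
    by simpa only [sub_sub_sub_cancel_right] using d2, fun a ha => ?_⟩
  rcases le_total a₀ a with h | h
  · obtain ⟨z, hz⟩ := slow_chain (P := fun n => ψ n - t n) d3 (a - a₀).toNat a₀ a h₀ ha h (by omega)
    exact ⟨z, by simp only at hz ⊢; linarith⟩
  · obtain ⟨z, hz⟩ := slow_chain (P := fun n => ψ n - t n) d3 (a₀ - a).toNat a a₀ ha h₀ h (by omega)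
    exact ⟨-z, by simp only at hz ⊢; push_cast; linarith⟩

end Pool.Agent.Lib.MP_ddde1e_an.IP
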