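import Pool.Agent.Lib.MP_ddde1e_an.IP.Slow
import Pool.Agent.Lib.MP_ddde1e_an.IP.Glue
import Pool.Agent.Lib.MP_ddde1e_an.IP.Iter

set_option autoImplicit false

open Filter Topology

namespace Pool.Agent.Lib.MP_ddde1e_an.IP

lemma step_lip {ψ : ℤ → ℝ} {c : ℝ} (h : ∀ n, |ψ (n + 1) - ψ n| ≤ c) (a : ℤ) (k : ℕ) :
    |ψ (a + k) - ψ a| ≤ k * c := by
  induction k with
  | zero => simp
  | succ k ih =>
    have h1 := h (a + k)
    have h2 := abs_sub_le (ψ (a + k + 1)) (ψ (a + k)) (ψ a)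
    push_cast
    rw [← add_assoc]
    linarith

lemma step_lip' {ψ : ℤ → ℝ} {c : ℝ} (h : ∀ n, |ψ (n + 1) - ψ n| ≤ c) {a b : ℤ} {R : ℕ}
    (hab : |b - a| ≤ R) : |ψ b - ψ a| ≤ R * c := by
  have hc : 0 ≤ c := (abs_nonneg _).trans (h 0)
  rw [abs_le] at hab
  rcases le_total a b with h1 | h1
  · obtain ⟨k, rfl⟩ : ∃ k : ℕ, b = a + k := ⟨(b - a).toNat, by omega⟩
    have : (k : ℝ) ≤ R := by exact_mod_cast (by omega : k ≤ R)
    exact (step_lip h a k).trans (mul_le_mul_of_nonneg_right this hc)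
  · obtain ⟨k, rfl⟩ : ∃ k : ℕ, a = b + k := ⟨(a - b).toNat, by omega⟩
    have : (k : ℝ) ≤ R := by exact_mod_cast (by omega : k ≤ R)
    rw [abs_sub_comm]
    exact (step_lip h b k).trans (mul_le_mul_of_nonneg_right this hc)

lemma step_norm (x e : ℝ) (z : ℤ) :
    |‖((x + z + e : ℝ) : UnitAddCircle)‖ - ‖((x : ℝ) : UnitAddCircle)‖| ≤ |e| := by
  have hz : (((z : ℝ) : ℝ) : UnitAddCircle) = 0 := by
    rw [AddCircle.coe_eq_zero_iff]
    exact ⟨z, by simp⟩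
  refine (abs_norm_sub_norm_le _ _).trans ?_
  rw [AddCircle.coe_add, AddCircle.coe_add, hz, add_zero, add_sub_cancel_left]
  exact QuotientAddGroup.norm_mk_le_norm

lemma step {S : Set ℤ} (h : ∀ L, J (der L S)) : J S := by
  intro R
  refine Sep.interp (sep_of_classes (M := 18 * R + 1) (by omega) fun r Y => ?_)
  set B := Near R S ∩ {n | n % ((18 * R + 1 : ℕ) : ℤ) = r} with hB
  have hs : ∀ b ∈ B, ∃ s ∈ S, |b - s| ≤ R := fun b hb => hb.1
  choose! s hs1 hs2 using hs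
  have hsep : ∀ b ∈ B, ∀ b' ∈ B, b ≠ b' → ((16 * R + 1 : ℕ) : ℤ) ≤ |s b - s b'| := by
    intro b hb b' hb' hne
    have h1 : ((18 * R + 1 : ℕ) : ℤ) ∣ b - b' :=
      Int.ModEq.dvd (show b' % _ = b % _ from hb'.2.trans hb.2.symm)
    have h2 := Int.le_of_dvd (abs_pos.2 (sub_ne_zero.2 hne)) ((dvd_abs _ _).2 h1)
    have h3 := abs_le.1 (hs2 b hb)
    have h4 := abs_le.1 (hs2 b' hb')
    push_cast at h2 ⊢
    rw [le_abs] at h2 ⊢
    omega
  classical
  obtain ⟨ψ, h1, h2, h3⟩ := slow (A := s '' B) (K := 16 * R + 1) (by omega) (by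
      rintro _ _ ⟨⟨b, hb, rfl⟩, ⟨b', hb', rfl⟩, hlt, -⟩
      have := hsep b' hb' b hb (by rintro rfl; exact lt_irrefl _ hlt)
      rwa [abs_of_pos (sub_pos.2 hlt)] at this) (fun L => (h L L).mono (by
      rintro n ⟨_, _, ⟨⟨b, hb, rfl⟩, ⟨b', hb', rfl⟩, hlt, -⟩, h1, h2, h3⟩
      refine ⟨s b, ⟨hs1 b hb, (s b' - s b).toNat, by omega, by omega, ?_⟩, ?_⟩
      · rw [show s b + ((s b' - s b).toNat : ℤ) = s b' by omega]
        exact hs1 b' hb'
      · rw [abs_le]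
        omega))
    fun a => if ∃ b ∈ B, b ∈ Y ∧ s b = a then 0 else 1 / 2
  have he : ∀ b ∈ B, |ψ b - ψ (s b)| ≤ 1 / 8 := fun b hb => by
    refine (step_lip' h2 (hs2 b hb)).trans ?_
    have : (0 : ℝ) ≤ R := Nat.cast_nonneg R
    push_cast
    rw [mul_div_assoc', div_le_div_iff₀ (by positivity) (by norm_num)]
    linarith
  refine ⟨fun n => max (-1) (min 1 (2 - 8 * ‖((ψ n : ℝ) : UnitAddCircle)‖)),
    h1.skew.comp (φ := fun y : UnitAddCircle => max (-1 : ℝ) (min 1 (2 - 8 * ‖y‖))) (by fun_prop),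
    fun n => abs_le.2 ⟨le_max_left _ _, max_le (by norm_num) (min_le_left _ _)⟩, ?_, ?_⟩
  · intro b hb hY
    obtain ⟨z, hz⟩ := h3 (s b) ⟨b, hb, rfl⟩
    rw [if_pos ⟨b, hb, hY, rfl⟩] at hz
    have h4 := step_norm 0 (ψ b - ψ (s b)) z
    rw [← hz, add_sub_cancel] at h4
    have h5 := (abs_le.1 (h4.trans (he b hb))).2
    simp only [AddCircle.coe_zero, norm_zero, sub_zero] at h5
    show max _ _ = _
    rw [min_eq_left (by linarith), max_eq_right (by norm_num)]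
  · intro b hb hY
    obtain ⟨z, hz⟩ := h3 (s b) ⟨b, hb, rfl⟩
    rw [if_neg] at hz
    · have h4 := step_norm (1 / 2) (ψ b - ψ (s b)) z
      rw [← hz, add_sub_cancel] at h4
      have h5 := (abs_le.1 (h4.trans (he b hb))).1
      have h6 : ‖(((1 / 2 : ℝ) : ℝ) : UnitAddCircle)‖ = 1 / 2 := by
        simpa using AddCircle.norm_half_period_eq (1 : ℝ)
      show max _ _ = _
      exact max_eq_left ((min_le_right _ _).trans (by linarith))
    · rintro ⟨b', hb', hY', e⟩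
      have := hsep b' hb' b hb (by rintro rfl; exact hY hY')
      rw [e, sub_self, abs_zero] at this
      omega

end Pool.Agent.Lib.MP_ddde1e_an.IP
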