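import Pool.Agent.Lib.MP_ddde1e_an.IP.Defs

set_option autoImplicit false

open Filter Topology

namespace Pool.Agent.Lib.MP_ddde1e_an.IP

/-- the shift of two-sided sequences -/
def sysSh (m : ℤ) (x : ℤ → ℂ) : ℤ → ℂ := fun k => x (k + m)

lemma sys_cont (m : ℤ) : Continuous (sysSh m) := continuous_pi fun k => continuous_apply (k + m)

lemma sys_add (m n : ℤ) (x : ℤ → ℂ) : sysSh m (sysSh n x) = sysSh (m + n) x := by
  funext k
  simp only [sysSh, add_assoc]

lemma sys_zero (x : ℤ → ℂ) : sysSh 0 x = x := by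
  funext k
  simp only [sysSh, add_zero]

/-- the orbit closure -/
def sysX (g : ℤ → ℂ) : Set (ℤ → ℂ) := closure (Set.range fun n => sysSh n g)

lemma sys_maps (g : ℤ → ℂ) (m : ℤ) : Set.MapsTo (sysSh m) (sysX g) (sysX g) := by
  refine Set.MapsTo.closure ?_ (sys_cont m)
  rintro _ ⟨n, rfl⟩
  exact ⟨m + n, (sys_add m n g).symm⟩

/-- the shift on the orbit closure -/
def sysT (g : ℤ → ℂ) : sysX g ≃ₜ sysX g where
  toFun x := ⟨sysSh 1 x, sys_maps g 1 x.2⟩
  invFun x := ⟨sysSh (-1) x, sys_maps g (-1) x.2⟩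
  left_inv x := Subtype.ext (by simp only [sys_add, neg_add_cancel, sys_zero])
  right_inv x := Subtype.ext (by simp only [sys_add, add_neg_cancel, sys_zero])
  continuous_toFun := ((sys_cont 1).comp continuous_subtype_val).subtype_mk _
  continuous_invFun := ((sys_cont (-1)).comp continuous_subtype_val).subtype_mk _

lemma sys_zpow (g : ℤ → ℂ) (n : ℤ) : ∀ x : sysX g, ((sysT g ^ n) x : ℤ → ℂ) = sysSh n x := by
  induction n using Int.induction_on with
  | zero => intro x; rw [zpow_zero, sys_zero]; rfl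
  | succ n ih =>
    intro x
    rw [zpow_add_one, Homeomorph.mul_apply, ih, ← sys_add]
    rfl
  | pred n ih =>
    intro x
    rw [zpow_sub_one, Homeomorph.mul_apply, ih, sub_eq_add_neg, ← sys_add]
    rfl

lemma sys_compact {g : ℤ → ℂ} {C : ℝ} (hC : ∀ n, ‖g n‖ ≤ C) : IsCompact (sysX g) := by
  have h1 : IsCompact (Set.pi Set.univ fun _ : ℤ => Metric.closedBall (0 : ℂ) C) :=
    isCompact_univ_pi fun _ => isCompact_closedBall 0 C
  refine h1.of_isClosed_subset isClosed_closure (closure_minimal ?_ h1.isClosed)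
  rintro _ ⟨n, rfl⟩ k _
  exact mem_closedBall_zero_iff.2 (hC _)

lemma sys_rec {g : ℤ → ℂ} (hg : Dis g) {u : Ultrafilter ℤ} (hu : ua u u = u) {x : ℤ → ℂ}
    (hx : x ∈ sysX g) (k : ℤ) : Tendsto (fun m => x (k + m)) u (𝓝 (x k)) := by
  have hne : (comap (fun n => sysSh n g) (𝓝 x)).NeBot := comap_neBot fun t ht => by
    obtain ⟨y, hy, n, rfl⟩ := mem_closure_iff_nhds.1 hx t ht
    exact ⟨n, hy⟩
  have hp : Tendsto (fun n => sysSh n g)
      (Ultrafilter.of (comap (fun n => sysSh n g) (𝓝 x)) : Filter ℤ) (𝓝 x) :=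
    tendsto_comap.mono_left (Ultrafilter.of_le _)
  generalize Ultrafilter.of (comap (fun n => sysSh n g) (𝓝 x)) = p at hp
  have hk : ∀ j, Tendsto (fun n => g (j + n)) p (𝓝 (x j)) := tendsto_pi_nhds.1 hp
  obtain ⟨a, h1, h2⟩ := hg.shift k u p hu
  rw [tendsto_nhds_unique h1 (hk k)] at h2
  refine (tendsto_ua (g := fun n => g (k + n)) (b := fun m => x (k + m)) fun m => ?_).1 h2
  simpa only [add_assoc] using hk (k + m)

lemma sys_distal {X : Type} [MetricSpace X] [CompactSpace X] (T : X ≃ₜ X) (ev : X → ℤ → ℂ)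
    (hc : ∀ k, Continuous fun x => ev x k) (hi : Function.Injective ev)
    (hT : ∀ (n : ℤ) x k, ev ((T ^ n) x) k = ev x (k + n))
    (hr : ∀ u : Ultrafilter ℤ, ua u u = u → ∀ x k,
      Tendsto (fun m => ev x (k + m)) u (𝓝 (ev x k))) (x y : X) (hxy : x ≠ y) :
    0 < ⨅ n : ℤ, dist ((T ^ n) x) ((T ^ n) y) := by
  by_contra h0
  rw [not_lt] at h0
  have hne : (comap (fun n : ℤ => dist ((T ^ n) x) ((T ^ n) y)) (𝓝 0)).NeBot :=
    comap_neBot fun t ht => by
      obtain ⟨ε, hε, h⟩ := Metric.mem_nhds_iff.1 ht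
      obtain ⟨n, hn⟩ := exists_lt_of_ciInf_lt (h0.trans_lt hε)
      exact ⟨n, h (by rwa [mem_ball_zero_iff, Real.norm_of_nonneg dist_nonneg])⟩
  have hp : Tendsto (fun n : ℤ => dist ((T ^ n) x) ((T ^ n) y))
      (Ultrafilter.of (comap (fun n : ℤ => dist ((T ^ n) x) ((T ^ n) y)) (𝓝 0)) : Filter ℤ)
      (𝓝 0) := tendsto_comap.mono_left (Ultrafilter.of_le _)
  generalize Ultrafilter.of (comap (fun n : ℤ => dist ((T ^ n) x) ((T ^ n) y)) (𝓝 0)) = p at hp
  let L : Set (Ultrafilter ℤ) := ⋂ (k : ℤ) (ε : ℝ) (_ : 0 < ε),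
    {q | {n | dist (ev x (k + n)) (ev y (k + n)) < ε} ∈ q}
  have hL : ∀ q, q ∈ L ↔ ∀ (k : ℤ) (ε : ℝ), 0 < ε →
      ∀ᶠ n in (q : Filter ℤ), dist (ev x (k + n)) (ev y (k + n)) < ε := fun q => by
    simp only [L, Set.mem_iInter, Set.mem_ofPred_eq]
    rfl
  have hcl : IsClosed L := isClosed_iInter fun k => isClosed_iInter fun ε =>
    isClosed_iInter fun _ => ultrafilter_isClosed_basic _
  have hpL : p ∈ L := (hL p).2 fun k ε hε => by
    obtain ⟨δ, hδ, h⟩ := Metric.uniformContinuous_iff.1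
      (CompactSpace.uniformContinuous_of_continuous (hc k)) ε hε
    filter_upwards [hp (Iio_mem_nhds hδ)] with n hn
    rw [← hT, ← hT]
    exact h hn
  let _ := Ultrafilter.addSemigroup (M := ℤ)
  obtain ⟨u, huL, hu⟩ := exists_idempotent_in_compact_add_subsemigroup
    (M := Ultrafilter ℤ) Ultrafilter.continuous_add_left L ⟨p, hpL⟩ hcl.isCompact
    (fun q _ q' hq' => (hL (ua q q')).2 fun k ε hε => (ev_ua q q' _).2 (.of_forall fun m => by
      simpa only [add_assoc] using (hL q').1 hq' (k + m) ε hε))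
  refine hxy (hi (funext fun k => ?_))
  have h1 := (hr u hu x k).dist (hr u hu y k)
  refine dist_le_zero.1 (le_of_forall_pos_le_add fun ε hε => ?_)
  rw [zero_add]
  exact le_of_tendsto h1 (((hL u).1 huL k ε hε).mono fun n hn => hn.le)

lemma exists_system {g : ℤ → ℂ} (hg : Dis g) {C : ℝ} (hC : ∀ n, ‖g n‖ ≤ C) :
    ∃ (X : Type) (_ : MetricSpace X) (_ : CompactSpace X) (T : X ≃ₜ X),
      (∀ x y : X, x ≠ y → 0 < ⨅ n : ℤ, dist ((T ^ n) x) ((T ^ n) y)) ∧
      ∃ (x : X) (F : X → ℂ), Continuous F ∧ ∀ n : ℕ, F ((T ^ n) x) = g n := by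
  have hK : CompactSpace (sysX g) := isCompact_iff_compactSpace.1 (sys_compact hC)
  have hev : ∀ k : ℤ, Continuous fun x : sysX g => (x : ℤ → ℂ) k :=
    fun k => (continuous_apply k).comp continuous_subtype_val
  refine ⟨sysX g, TopologicalSpace.metrizableSpaceMetric (sysX g), hK, sysT g, ?_,
    ⟨g, subset_closure ⟨0, sys_zero g⟩⟩, fun x => (x : ℤ → ℂ) 0, hev 0, fun n => ?_⟩
  · exact @sys_distal (sysX g) (TopologicalSpace.metrizableSpaceMetric (sysX g)) hK (sysT g)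
      (fun x => (x : ℤ → ℂ)) hev Subtype.val_injective
      (fun n x k => congrFun (sys_zpow g n x) k) (fun u hu x k => sys_rec hg hu x.2 k)
  · have := congrFun (sys_zpow g n ⟨g, subset_closure ⟨0, sys_zero g⟩⟩) 0
    rw [zpow_natCast] at this
    refine this.trans ?_
    simp only [sysSh, zero_add]

end Pool.Agent.Lib.MP_ddde1e_an.IP
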